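import Pool.Agent.Run7.h442.BA.Stm
import Pool.Agent.N306.HB.LV

/-! # Project BA, piece G: one level contracts the hyperbolic distance -/

set_option autoImplicit false

namespace Pool.Agent.Run7.h298.BAG

open MeasureTheory Pool.Agent.N659.HB Pool.Agent.Run7.h442.BA Pool.Agent.N306.HB.LV
open Pool.Agent.W792.WA
open scoped ComplexConjugate

/-! ### Algebra -/

lemma quad {V1 V2 g : ℝ} {C : ℂ} (h0 : 0 ≤ (1 - g) * (V1 * V2))
    (h : ∀ α : ℂ, g * V1 ≤ V1 - 2 * (conj α * C).re + ‖α‖ ^ 2 * V2) :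
    ‖C‖ ^ 2 ≤ (1 - g) * (V1 * V2) := by
  have hd := discrim_le_zero (a := ‖C‖ ^ 2 * V2) (b := -2 * ‖C‖ ^ 2) (c := (1 - g) * V1) (by
    intro s
    have h1 := h ((s : ℂ) * C)
    have e1 : (conj ((s : ℂ) * C) * C).re = s * ‖C‖ ^ 2 := by
      rw [map_mul, Complex.conj_ofReal, mul_assoc, Complex.conj_mul', Complex.re_ofReal_mul]
      norm_cast
    have e2 : ‖(s : ℂ) * C‖ ^ 2 = s * s * ‖C‖ ^ 2 := by
      rw [norm_mul, mul_pow, Complex.norm_real, Real.norm_eq_abs, sq_abs]; ring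
    rw [e1, e2] at h1
    linarith)
  unfold discrim at hd
  rcases (sq_nonneg ‖C‖).eq_or_lt with h2 | h2
  · rw [← h2]; exact h0
  · have h3 : ‖C‖ ^ 2 * (4 * ‖C‖ ^ 2) ≤ ‖C‖ ^ 2 * (4 * ((1 - g) * (V1 * V2))) := by linarith
    have := le_of_mul_le_mul_left h3 h2
    linarith

lemma nsq_sub (u v α : ℂ) : ‖u - α * v‖ ^ 2 =
    ‖u‖ ^ 2 - 2 * (conj α * (u * conj v)).re + ‖α‖ ^ 2 * ‖v‖ ^ 2 := by
  rw [← Complex.normSq_eq_norm_sq, ← Complex.normSq_eq_norm_sq, ← Complex.normSq_eq_norm_sq,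
    ← Complex.normSq_eq_norm_sq]
  simp only [Complex.normSq_apply, Complex.sub_re, Complex.sub_im, Complex.mul_re, Complex.mul_im,
    Complex.conj_re, Complex.conj_im]
  ring

/-! ### Integrals -/

section integrals

variable {ρ : Measure ℝ} [IsProbabilityMeasure ρ]

lemma intb {E : Type*} [NormedAddCommGroup E] {f : ℝ → E} (hc : Continuous f)
    {C : ℝ} (hb : ∀ a, ‖f a‖ ≤ C) [SecondCountableTopology E] : Integrable f ρ :=
  Integrable.of_bound hc.aestronglyMeasurable C (ae_of_all _ hb)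

omit [IsProbabilityMeasure ρ] in
lemma int3 {f g h : ℝ → ℝ} (hf : Integrable f ρ) (hg : Integrable g ρ) (hh : Integrable h ρ) :
    ∫ a, (f a - 2 * g a + h a) ∂ρ = (∫ a, f a ∂ρ) - 2 * (∫ a, g a ∂ρ) + ∫ a, h a ∂ρ := by
  have e : Integrable (fun a => f a - 2 * g a) ρ := hf.sub (hg.const_mul 2)
  rw [integral_add e hh, integral_sub hf (hg.const_mul 2), integral_const_mul]

lemma int_sub_mean {F : ℝ → ℂ} (hc : Continuous F) {C : ℝ} (hb : ∀ a, ‖F a‖ ≤ C) :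
    ∫ a, ‖F a - ∫ b, F b ∂ρ‖ ^ 2 ∂ρ = (∫ a, ‖F a‖ ^ 2 ∂ρ) - ‖∫ b, F b ∂ρ‖ ^ 2 := by
  set m := ∫ b, F b ∂ρ with hm
  have hC : 0 ≤ C := (norm_nonneg _).trans (hb 0)
  have i0 : Integrable F ρ := intb hc hb
  have i1 : Integrable (fun a => ‖F a‖ ^ 2) ρ := intb (by fun_prop) (C := C ^ 2) (fun a => by
    rw [Real.norm_eq_abs, abs_pow, abs_norm]
    exact pow_le_pow_left₀ (norm_nonneg _) (hb a) 2)
  have i2 : Integrable (fun a => (F a * conj m).re) ρ := (i0.mul_const (conj m)).re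
  have e1 : ∀ a, ‖F a - m‖ ^ 2 = ‖F a‖ ^ 2 - 2 * (F a * conj m).re + ‖m‖ ^ 2 := by
    intro a
    have := nsq_sub (F a) m 1
    simpa using this
  have e2 : ∫ a, (F a * conj m).re ∂ρ = ‖m‖ ^ 2 := by
    have h1 : ∫ a, (F a * conj m).re ∂ρ = (∫ a, F a * conj m ∂ρ).re :=
      integral_re (i0.mul_const (conj m))
    rw [h1, integral_mul_const, ← hm, Complex.mul_conj']
    norm_cast
  calc ∫ a, ‖F a - m‖ ^ 2 ∂ρ = ∫ a, (‖F a‖ ^ 2 - 2 * (F a * conj m).re + ‖m‖ ^ 2) ∂ρ := by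
        congr 1; funext a; exact e1 a
    _ = (∫ a, ‖F a‖ ^ 2 ∂ρ) - 2 * ∫ a, (F a * conj m).re ∂ρ + ‖m‖ ^ 2 := by
        rw [int3 i1 i2 (integrable_const _)]
        simp
    _ = _ := by rw [e2]; ring

lemma var_expand {f g : ℝ → ℂ} (hf : Continuous f) (hg : Continuous g) {C : ℝ}
    (hfb : ∀ a, ‖f a‖ ≤ C) (hgb : ∀ a, ‖g a‖ ≤ C) (α : ℂ) :
    ∫ a, ‖f a - α * conj (g a) - ((∫ b, f b ∂ρ) - α * conj (∫ b, g b ∂ρ))‖ ^ 2 ∂ρ =
      ((∫ a, ‖f a‖ ^ 2 ∂ρ) - ‖∫ b, f b ∂ρ‖ ^ 2)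
        - 2 * (conj α * ((∫ a, f a * g a ∂ρ) - (∫ b, f b ∂ρ) * (∫ b, g b ∂ρ))).re
        + ‖α‖ ^ 2 * ((∫ a, ‖g a‖ ^ 2 ∂ρ) - ‖∫ b, g b ∂ρ‖ ^ 2) := by
  have hC : 0 ≤ C := (norm_nonneg _).trans (hfb 0)
  have if0 : Integrable f ρ := intb hf hfb
  have ig0 : Integrable g ρ := intb hg hgb
  have hgc : Continuous fun a => conj (g a) := Complex.continuous_conj.comp hg
  have igc : Integrable (fun a => conj (g a)) ρ := intb hgc (C := C) (fun a => by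
    rw [RCLike.norm_conj]; exact hgb a)
  have ifg : Integrable (fun a => f a * g a) ρ := intb (hf.mul hg) (C := C * C) (fun a => by
    rw [norm_mul]; exact mul_le_mul (hfb a) (hgb a) (norm_nonneg _) hC)
  have sq : ∀ F : ℝ → ℂ, Continuous F → (∀ a, ‖F a‖ ≤ C) → Integrable (fun a => ‖F a‖ ^ 2) ρ :=
    fun F hF hFb => intb (by fun_prop) (C := C ^ 2) (fun a => by
      rw [Real.norm_eq_abs, abs_pow, abs_norm]
      exact pow_le_pow_left₀ (norm_nonneg _) (hFb a) 2)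
  have i1 := sq f hf hfb
  have i2 := sq g hg hgb
  have em : (∫ b, (f b - α * conj (g b)) ∂ρ) = (∫ b, f b ∂ρ) - α * conj (∫ b, g b ∂ρ) := by
    rw [integral_sub if0 (igc.const_mul α), integral_const_mul, integral_conj]
  have hFc : Continuous fun a => f a - α * conj (g a) := hf.sub (continuous_const.mul hgc)
  have hFb : ∀ a, ‖f a - α * conj (g a)‖ ≤ C + ‖α‖ * C := fun a => by
    refine (norm_sub_le _ _).trans (add_le_add (hfb a) ?_)
    rw [norm_mul, RCLike.norm_conj]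
    exact mul_le_mul_of_nonneg_left (hgb a) (norm_nonneg _)
  have h1 := int_sub_mean (ρ := ρ) hFc hFb
  rw [em] at h1
  rw [h1]
  have i3 : Integrable (fun a => (conj α * (f a * g a)).re) ρ := (ifg.const_mul (conj α)).re
  have e3 : ∫ a, (conj α * (f a * g a)).re ∂ρ = (conj α * ∫ a, f a * g a ∂ρ).re := by
    have h2 : ∫ a, (conj α * (f a * g a)).re ∂ρ = (∫ a, conj α * (f a * g a) ∂ρ).re :=
      integral_re (ifg.const_mul (conj α))
    rw [h2, integral_const_mul]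
  have e4 : ∫ a, ‖f a - α * conj (g a)‖ ^ 2 ∂ρ = (∫ a, ‖f a‖ ^ 2 ∂ρ)
      - 2 * (conj α * ∫ a, f a * g a ∂ρ).re + ‖α‖ ^ 2 * ∫ a, ‖g a‖ ^ 2 ∂ρ := by
    calc ∫ a, ‖f a - α * conj (g a)‖ ^ 2 ∂ρ
        = ∫ a, (‖f a‖ ^ 2 - 2 * (conj α * (f a * g a)).re + ‖α‖ ^ 2 * ‖g a‖ ^ 2) ∂ρ := by
          congr 1; funext a
          rw [nsq_sub, Complex.conj_conj, RCLike.norm_conj]
      _ = _ := by
          rw [int3 i1 i3 (i2.const_mul _), integral_const_mul, e3]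
  rw [e4, nsq_sub, Complex.conj_conj, RCLike.norm_conj, mul_sub, Complex.sub_re]
  ring

/-- The mass of an interval. -/
lemma mass {r x₀ : ℝ} (hr : 0 < r)
    (h : ∀ t : ℂ, t.im < 0 → |t.re| ≤ 3 * r / 8 → -r ≤ t.im → 2 / (5 * r) ≤ (bet ρ t).im)
    (hx : |x₀| ≤ 3 * r / 8) : 1 / 1600 ≤ ρ.real {a | |x₀ + a| ≤ r / 8} := by
  set ε : ℝ := r / 320 with hε
  have hε0 : 0 < ε := by positivity
  set t : ℂ := ⟨x₀, -ε⟩ with ht
  have htim : t.im < 0 := by simp only [ht]; linarith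
  have h1 := h t htim (by simpa [ht] using hx) (by simp only [ht]; rw [hε]; linarith)
  have h2 : (bet ρ t).im = ∫ a, (1 / (t + (a : ℂ))).im ∂ρ := by
    unfold bet
    exact (integral_im (intg ρ htim)).symm
  have hmeas : MeasurableSet {a : ℝ | |x₀ + a| ≤ r / 8} :=
    measurableSet_le (by fun_prop) measurable_const
  have h3 : ∫ a, (1 / (t + (a : ℂ))).im ∂ρ ≤
      ∫ a, ({a : ℝ | |x₀ + a| ≤ r / 8}.indicator (fun _ => 1 / ε) a + 1 / (5 * r)) ∂ρ := by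
    apply integral_mono (intg ρ htim).im
    · exact ((integrable_const _).indicator hmeas).add (integrable_const _)
    intro a
    simp only
    rw [show RCLike.im (1 / (t + (a : ℂ))) = (1 / (t + (a : ℂ))).im from rfl, im_inv]
    have e1 : ‖t + (a : ℂ)‖ ^ 2 = (x₀ + a) ^ 2 + ε ^ 2 := by
      rw [← Complex.normSq_eq_norm_sq, Complex.normSq_apply]
      simp [ht]; ring
    have e2 : -t.im = ε := by simp [ht]
    rw [e1, e2]
    by_cases ha : |x₀ + a| ≤ r / 8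
    · rw [Set.indicator_of_mem (by exact ha)]
      have : ε / ((x₀ + a) ^ 2 + ε ^ 2) ≤ 1 / ε := by
        rw [div_le_div_iff₀ (by positivity) hε0]
        nlinarith [sq_nonneg (x₀ + a)]
      have : (0 : ℝ) ≤ 1 / (5 * r) := by positivity
      linarith
    · rw [Set.indicator_of_notMem (by exact ha), zero_add]
      push Not at ha
      have h4 : (r / 8) ^ 2 ≤ (x₀ + a) ^ 2 := by
        rw [← sq_abs (x₀ + a)]
        exact pow_le_pow_left₀ (by positivity) ha.le 2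
      rw [div_le_div_iff₀ (by positivity) (by positivity), hε]
      nlinarith
  have h4 : ∫ a, ({a : ℝ | |x₀ + a| ≤ r / 8}.indicator (fun _ => 1 / ε) a + 1 / (5 * r)) ∂ρ =
      ρ.real {a | |x₀ + a| ≤ r / 8} * (1 / ε) + 1 / (5 * r) := by
    rw [integral_add ((integrable_const _).indicator hmeas) (integrable_const _),
      integral_indicator_const _ hmeas]
    simp
  rw [h4, ← h2] at h3
  have h5 : 2 / (5 * r) ≤ ρ.real {a | |x₀ + a| ≤ r / 8} * (1 / ε) + 1 / (5 * r) := h1.trans h3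
  have h6 : 1 / (5 * r) ≤ ρ.real {a | |x₀ + a| ≤ r / 8} * (1 / ε) := by
    have : 2 / (5 * r) = 1 / (5 * r) + 1 / (5 * r) := by ring
    linarith
  have h7 : 1 / (5 * r) * ε ≤ ρ.real {a | |x₀ + a| ≤ r / 8} := by
    have := mul_le_mul_of_nonneg_right h6 hε0.le
    rwa [mul_assoc, one_div_mul_cancel hε0.ne', mul_one] at this
  have h8 : 1 / (5 * r) * ε = 1 / 1600 := by rw [hε]; field_simp; norm_num
  rwa [h8] at h7

/-- A point where the function is small. -/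
lemma point {I : Set ℝ} (hI : MeasurableSet I) (hm : 1 / 1600 ≤ ρ.real I) {φ : ℝ → ℂ}
    (hc : Continuous φ) {C : ℝ} (hb : ∀ a, ‖φ a‖ ≤ C) {κ : ℝ} (hκ : 0 < κ)
    (h : ∫ a, ‖φ a‖ ^ 2 ∂ρ < κ / 1600) : ∃ a ∈ I, ‖φ a‖ ^ 2 < κ := by
  by_contra hcon
  push Not at hcon
  have i1 : Integrable (fun a => ‖φ a‖ ^ 2) ρ := intb (by fun_prop) (C := C ^ 2) (fun a => by
    rw [Real.norm_eq_abs, abs_pow, abs_norm]
    exact pow_le_pow_left₀ (norm_nonneg _) (hb a) 2)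
  have h1 : ∫ a, I.indicator (fun _ => κ) a ∂ρ ≤ ∫ a, ‖φ a‖ ^ 2 ∂ρ := by
    apply integral_mono ((integrable_const _).indicator hI) i1
    intro a
    by_cases ha : a ∈ I
    · rw [Set.indicator_of_mem ha]; exact hcon a ha
    · rw [Set.indicator_of_notMem ha]; positivity
  rw [integral_indicator_const _ hI, smul_eq_mul] at h1
  have h2 := mul_le_mul_of_nonneg_right hm hκ.le
  linarith

end integrals

/-- Interpolation. -/
lemma lagrange {p q α γ : ℂ} {a₁ a₂ a₃ δ E M : ℝ} (hδ : 0 < δ) (h12 : δ ≤ |a₁ - a₂|)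
    (h13 : δ ≤ |a₁ - a₃|) (h23 : δ ≤ |a₂ - a₃|) (hM : 0 ≤ M) (hE : 0 ≤ E)
    (hP : ∀ a ∈ ({a₁, a₂, a₃} : Set ℝ),
      ‖(q + a) - α * (p + a) - γ * ((p + a) * (q + a))‖ ≤ M ∧ ‖p + (a : ℂ)‖ ≤ E) :
    ‖q - p‖ ≤ 3 * M * E ^ 2 / δ ^ 2 := by
  set P : ℂ → ℂ := fun z => (q + z) - α * (p + z) - γ * ((p + z) * (q + z)) with hPdef
  have key : ((a₁ : ℂ) - a₂) * ((a₁ : ℂ) - a₃) * ((a₂ : ℂ) - a₃) * (q - p) =
      P a₁ * ((p + a₂) * (p + a₃)) * ((a₂ : ℂ) - a₃)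
        - P a₂ * ((p + a₁) * (p + a₃)) * ((a₁ : ℂ) - a₃)
        + P a₃ * ((p + a₁) * (p + a₂)) * ((a₁ : ℂ) - a₂) := by
    simp only [hPdef]; ring
  obtain ⟨b1, c1⟩ := hP a₁ (by simp)
  obtain ⟨b2, c2⟩ := hP a₂ (by simp)
  obtain ⟨b3, c3⟩ := hP a₃ (by simp)
  have n12 : ‖(a₁ : ℂ) - a₂‖ = |a₁ - a₂| := by
    rw [← Complex.ofReal_sub, Complex.norm_real, Real.norm_eq_abs]
  have n13 : ‖(a₁ : ℂ) - a₃‖ = |a₁ - a₃| := by
    rw [← Complex.ofReal_sub, Complex.norm_real, Real.norm_eq_abs]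
  have n23 : ‖(a₂ : ℂ) - a₃‖ = |a₂ - a₃| := by
    rw [← Complex.ofReal_sub, Complex.norm_real, Real.norm_eq_abs]
  set A := |a₁ - a₂| with hA
  set B := |a₁ - a₃| with hB
  set C := |a₂ - a₃| with hC
  have hA0 : 0 < A := hδ.trans_le h12
  have hB0 : 0 < B := hδ.trans_le h13
  have hC0 : 0 < C := hδ.trans_le h23
  have T : ∀ (u v w z : ℂ) (c : ℝ), ‖u‖ ≤ M → ‖v‖ ≤ E → ‖w‖ ≤ E → ‖z‖ = c → 0 ≤ c →
      ‖u * (v * w) * z‖ ≤ M * E ^ 2 * c := by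
    intro u v w z c hu hv hw hz hc
    rw [norm_mul, norm_mul, norm_mul, hz]
    have h1 : ‖v‖ * ‖w‖ ≤ E ^ 2 := by
      rw [pow_two]; exact mul_le_mul hv hw (norm_nonneg _) hE
    exact mul_le_mul_of_nonneg_right (mul_le_mul hu h1 (by positivity) hM) hc
  have h1 : A * B * C * ‖q - p‖ ≤ M * E ^ 2 * C + M * E ^ 2 * B + M * E ^ 2 * A := by
    have h2 := congrArg norm key
    rw [norm_mul, norm_mul, norm_mul, n12, n13, n23] at h2
    rw [h2]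
    refine (norm_add_le _ _).trans (add_le_add ((norm_sub_le _ _).trans (add_le_add ?_ ?_)) ?_)
    · exact T _ _ _ _ _ b1 c2 c3 n23 hC0.le
    · exact T _ _ _ _ _ b2 c1 c3 n13 hB0.le
    · exact T _ _ _ _ _ b3 c1 c2 n12 hA0.le
  have hME : 0 ≤ M * E ^ 2 := by positivity
  rw [le_div_iff₀ (by positivity)]
  have hABC : 0 < A * B * C := by positivity
  have s1 : δ ^ 2 * C ≤ A * B * C := by
    rw [pow_two]; exact mul_le_mul_of_nonneg_right (mul_le_mul h12 h13 hδ.le hA0.le) hC0.le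
  have s2 : δ ^ 2 * B ≤ A * B * C := by
    have : δ * δ ≤ A * C := mul_le_mul h12 h23 hδ.le hA0.le
    nlinarith
  have s3 : δ ^ 2 * A ≤ A * B * C := by
    have : δ * δ ≤ B * C := mul_le_mul h13 h23 hδ.le hB0.le
    nlinarith
  have h3 : A * B * C * (‖q - p‖ * δ ^ 2) ≤ A * B * C * (3 * M * E ^ 2) := by
    have h4 := mul_le_mul_of_nonneg_right h1 (show 0 ≤ δ ^ 2 by positivity)
    have t1 := mul_le_mul_of_nonneg_left s1 hME
    have t2 := mul_le_mul_of_nonneg_left s2 hME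
    have t3 := mul_le_mul_of_nonneg_left s3 hME
    linarith
  exact le_of_mul_le_mul_left h3 hABC

/-- The functions `1 / (t + a)` have no relation with the conjugate ones. -/
lemma dist_lb {ρ : Measure ℝ} [IsProbabilityMeasure ρ] {r η D : ℝ} (hr : 0 < r) (hη : 0 < η)
    (hrD : r ≤ D)
    (h : ∀ t : ℂ, t.im < 0 → |t.re| ≤ 3 * r / 8 → -r ≤ t.im → 2 / (5 * r) ≤ (bet ρ t).im)
    {t₁ t₂ : ℂ} (h1 : t₁.im ≤ -η) (h2 : t₂.im ≤ -η) (n1 : ‖t₁‖ ≤ D) (n2 : ‖t₂‖ ≤ D) (α γ : ℂ) :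
    (η * r ^ 2 / (500 * D ^ 4)) ^ 2 / 1600 ≤
      ∫ a, ‖1 / (t₁ + (a : ℂ)) - α * conj (1 / (t₂ + (a : ℂ))) - γ‖ ^ 2 ∂ρ := by
  by_contra hcon
  push Not at hcon
  have hD : 0 < D := hr.trans_le hrD
  have i1 : t₁.im < 0 := by linarith
  have i2 : t₂.im < 0 := by linarith
  set s : ℝ := η * r ^ 2 / (500 * D ^ 4) with hs
  have hs0 : 0 < s := by positivity
  set φ : ℝ → ℂ := fun a => 1 / (t₁ + (a : ℂ)) - α * conj (1 / (t₂ + (a : ℂ))) - γ with hφ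
  have hφc : Continuous φ :=
    ((cont i1).sub (continuous_const.mul (Complex.continuous_conj.comp (cont i2)))).sub
      continuous_const
  have hφb : ∀ a, ‖φ a‖ ≤ 1 / (-t₁.im) + ‖α‖ * (1 / (-t₂.im)) + ‖γ‖ := by
    intro a
    refine (norm_sub_le _ _).trans (add_le_add ((norm_sub_le _ _).trans (add_le_add (nbd i1 a) ?_))
      le_rfl)
    rw [norm_mul, RCLike.norm_conj]
    exact mul_le_mul_of_nonneg_left (nbd i2 a) (norm_nonneg _)
  have P : ∀ x₀ : ℝ, |x₀| ≤ 3 * r / 8 → ∃ a : ℝ, |x₀ + a| ≤ r / 8 ∧ ‖φ a‖ ≤ s := by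
    intro x₀ hx
    obtain ⟨a, ha, hb⟩ := point (ρ := ρ) (I := {a | |x₀ + a| ≤ r / 8})
      (measurableSet_le (by fun_prop) measurable_const) (mass hr h hx) hφc hφb
      (κ := s ^ 2) (by positivity) hcon
    exact ⟨a, ha, (sq_le_sq₀ (norm_nonneg _) hs0.le).1 hb.le⟩
  obtain ⟨a₁, k1, l1⟩ := P (-(3 * r / 8)) (by rw [abs_neg, abs_of_pos (by positivity)])
  obtain ⟨a₂, k2, l2⟩ := P 0 (by rw [abs_zero]; positivity)
  obtain ⟨a₃, k3, l3⟩ := P (3 * r / 8) (by rw [abs_of_pos (by positivity)])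
  rw [abs_le] at k1 k2 k3
  have hP : ∀ a ∈ ({a₁, a₂, a₃} : Set ℝ),
      ‖(conj t₂ + a) - α * (t₁ + a) - γ * ((t₁ + a) * (conj t₂ + a))‖ ≤ s * (3 / 2 * D) ^ 2 ∧
        ‖t₁ + (a : ℂ)‖ ≤ 3 / 2 * D := by
    have key : ∀ a : ℝ, |a| ≤ r / 2 → ‖φ a‖ ≤ s →
      ‖(conj t₂ + a) - α * (t₁ + a) - γ * ((t₁ + a) * (conj t₂ + a))‖ ≤ s * (3 / 2 * D) ^ 2 ∧
        ‖t₁ + (a : ℂ)‖ ≤ 3 / 2 * D := by
      intro a ha hb
      have e1 : ‖t₁ + (a : ℂ)‖ ≤ 3 / 2 * D := by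
        refine (norm_add_le _ _).trans ?_
        rw [Complex.norm_real, Real.norm_eq_abs]
        linarith
      have e2 : ‖conj t₂ + (a : ℂ)‖ ≤ 3 / 2 * D := by
        refine (norm_add_le _ _).trans ?_
        rw [Complex.norm_real, Real.norm_eq_abs, RCLike.norm_conj]
        linarith
      refine ⟨?_, e1⟩
      have z1 := ne0 i1 a
      have z2 : conj t₂ + (a : ℂ) ≠ 0 := by
        intro h0
        have := congrArg Complex.im h0
        simp at this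
        linarith
      have e3 : (conj t₂ + a) - α * (t₁ + a) - γ * ((t₁ + a) * (conj t₂ + a)) =
          φ a * ((t₁ + a) * (conj t₂ + a)) := by
        rw [hφ]
        simp only
        rw [map_div₀, map_one, map_add, Complex.conj_ofReal]
        field_simp
      rw [e3, norm_mul, norm_mul, pow_two]
      exact mul_le_mul hb (mul_le_mul e1 e2 (norm_nonneg _) (by positivity)) (by positivity) hs0.le
    intro a ha
    rcases ha with rfl | rfl | rfl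
    · exact key _ (by rw [abs_le]; constructor <;> linarith [k1.1, k1.2]) l1
    · exact key _ (by rw [abs_le]; constructor <;> linarith [k2.1, k2.2]) l2
    · exact key _ (by rw [abs_le]; constructor <;> linarith [k3.1, k3.2]) l3
  have hl := lagrange (p := t₁) (q := conj t₂) (δ := r / 8) (E := 3 / 2 * D)
    (M := s * (3 / 2 * D) ^ 2) (by positivity)
    (by rw [le_abs]; left; linarith [k1.1, k2.2]) (by rw [le_abs]; left; linarith [k1.1, k3.2])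
    (by rw [le_abs]; left; linarith [k2.1, k3.2]) (by positivity) (by positivity) hP
  have h3 : 2 * η ≤ ‖conj t₂ - t₁‖ := by
    have := Complex.abs_im_le_norm (conj t₂ - t₁)
    rw [Complex.sub_im, Complex.conj_im] at this
    have h4 := le_abs_self (-t₂.im - t₁.im)
    linarith
  have h4 : 3 * (s * (3 / 2 * D) ^ 2) * (3 / 2 * D) ^ 2 / (r / 8) ^ 2 = 972 / 500 * η := by
    rw [hs]; field_simp; norm_num
  rw [h4] at hl
  linarith

theorem main (lv : S_LV) : S_GRAM := by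
  refine ⟨1 / 400000000, by norm_num, by norm_num, ?_⟩
  intro ψ hψ r η D ρ' _ hr hη hrD hηD hρ' x S₁ S₂ hx hS₁ hS₂ hD1 hD2
  have hD : 0 < D := hr.trans_le hrD
  have hlv := lv ψ hψ r ρ' hr hρ'
  set ρ := (lev ψ r).conv ρ' with hρ
  have : IsProbabilityMeasure ρ := by rw [hρ]; infer_instance
  have hm : ∀ t : ℂ, t.im < 0 → |t.re| ≤ 3 * r / 8 → -r ≤ t.im →
      2 / (5 * r) ≤ (bet ρ t).im := fun t ht => (hlv t ht).2.2.1
  set t₁ := x + S₁ with ht₁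
  set t₂ := x + S₂ with ht₂
  have j1 : t₁.im ≤ -η := by rw [ht₁, Complex.add_im]; linarith
  have j2 : t₂.im ≤ -η := by rw [ht₂, Complex.add_im]; linarith
  have i1 : t₁.im < 0 := by linarith
  have i2 : t₂.im < 0 := by linarith
  set f : ℝ → ℂ := fun a => 1 / (t₁ + (a : ℂ)) with hf
  set g : ℝ → ℂ := fun a => 1 / (t₂ + (a : ℂ)) with hg
  have hfb : ∀ a, ‖f a‖ ≤ 1 / η := fun a => (nbd i1 a).trans
    (one_div_le_one_div_of_le hη (by linarith))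
  have hgb : ∀ a, ‖g a‖ ≤ 1 / η := fun a => (nbd i2 a).trans
    (one_div_le_one_div_of_le hη (by linarith))
  have hfc : Continuous f := cont i1
  have hgc : Continuous g := cont i2
  set β₁ := bet ρ t₁ with hβ₁
  set β₂ := bet ρ t₂ with hβ₂
  have eβ₁ : ∫ a, f a ∂ρ = β₁ := rfl
  have eβ₂ : ∫ a, g a ∂ρ = β₂ := rfl
  set A₁ := ∫ a, ‖f a‖ ^ 2 ∂ρ with hA₁
  set A₂ := ∫ a, ‖g a‖ ^ 2 ∂ρ with hA₂
  set V₁ := A₁ - ‖β₁‖ ^ 2 with hV₁
  set V₂ := A₂ - ‖β₂‖ ^ 2 with hV₂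
  set Cv := (∫ a, f a * g a ∂ρ) - β₁ * β₂ with hCv
  have hV10 : 0 ≤ V₁ := by
    have := int_sub_mean (ρ := ρ) hfc hfb
    rw [eβ₁] at this
    rw [hV₁, ← this]
    exact integral_nonneg fun a => by positivity
  have hV20 : 0 ≤ V₂ := by
    have := int_sub_mean (ρ := ρ) hgc hgb
    rw [eβ₂] at this
    rw [hV₂, ← this]
    exact integral_nonneg fun a => by positivity
  have sqint : ∀ F : ℝ → ℂ, Continuous F → (∀ a, ‖F a‖ ≤ 1 / η) →
      Integrable (fun a => ‖F a‖ ^ 2) ρ :=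
    fun F hF hFb => intb (by fun_prop) (C := (1 / η) ^ 2) (fun a => by
      rw [Real.norm_eq_abs, abs_pow, abs_norm]
      exact pow_le_pow_left₀ (norm_nonneg _) (hFb a) 2)
  have hA1 : A₁ ≤ 1 / η ^ 2 := by
    have : A₁ ≤ ∫ _a, (1 / η) ^ 2 ∂ρ := by
      apply integral_mono (sqint f hfc hfb) (integrable_const _)
      intro a
      exact pow_le_pow_left₀ (norm_nonneg _) (hfb a) 2
    simpa using this
  -- the ratio
  set θ := η * r / D ^ 2 with hθ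
  have hθ0 : 0 < θ := by positivity
  have hθ1 : θ ≤ 1 := by
    rw [hθ, div_le_one (by positivity), pow_two]
    exact mul_le_mul hηD hrD hr.le hD.le
  set gp : ℝ := 1 / 400000000 * θ ^ 6 with hgp
  have hgp0 : 0 ≤ gp := by positivity
  have hgp1 : gp ≤ 1 := by
    have : θ ^ 6 ≤ 1 := pow_le_one₀ hθ0.le hθ1
    rw [hgp]; linarith
  have hgV : gp * V₁ ≤ (η * r ^ 2 / (500 * D ^ 4)) ^ 2 / 1600 := by
    have a1 : V₁ ≤ 1 / η ^ 2 := by
      have : 0 ≤ ‖β₁‖ ^ 2 := by positivity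
      linarith
    have a2 : (η * r ^ 2 / (500 * D ^ 4)) ^ 2 / 1600 = 1 / 400000000 * θ ^ 4 * (1 / η ^ 2) := by
      rw [hθ]; field_simp; norm_num
    rw [a2]
    refine mul_le_mul ?_ a1 hV10 (by positivity)
    rw [hgp]
    exact mul_le_mul_of_nonneg_left (pow_le_pow_of_le_one hθ0.le hθ1 (by norm_num)) (by norm_num)
  have hCov : ‖Cv‖ ^ 2 ≤ (1 - gp) * (V₁ * V₂) := by
    apply quad (mul_nonneg (by linarith) (mul_nonneg hV10 hV20))
    intro α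
    have b1 := var_expand (ρ := ρ) hfc hgc hfb hgb α
    have b2 := dist_lb (ρ := ρ) hr hη hrD hm j1 j2 hD1 hD2 α
      ((∫ b, f b ∂ρ) - α * conj (∫ b, g b ∂ρ))
    have b3 := hgV.trans b2
    rw [b1] at b3
    exact b3
  -- the transforms
  have imβ : ∀ (t : ℂ), t.im < 0 → Integrable (fun a : ℝ => ‖1 / (t + (a : ℂ))‖ ^ 2) ρ →
      (bet ρ t).im = -t.im * ∫ a, ‖1 / (t + (a : ℂ))‖ ^ 2 ∂ρ := by
    intro t ht _
    have c1 : (bet ρ t).im = ∫ a, (1 / (t + (a : ℂ))).im ∂ρ := by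
      unfold bet
      exact (integral_im (intg ρ ht)).symm
    rw [c1, ← integral_const_mul]
    congr 1
    funext a
    rw [im_inv, norm_div, norm_one, div_pow, one_pow]
    ring
  have im1 : β₁.im = -t₁.im * A₁ := imβ t₁ i1 (sqint f hfc hfb)
  have im2 : β₂.im = -t₂.im * A₂ := imβ t₂ i2 (sqint g hgc hgb)
  have pos : ∀ t : ℂ, t.im < 0 → 0 < (bet ρ t).im := by
    intro t ht
    refine lt_of_lt_of_le ?_ (hlv t ht).2.2.2.1
    have h3 : 0 < -t.im := by linarith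
    have : 0 < ‖t‖ + 2 * r := by positivity
    positivity
  have p1 : 0 < β₁.im := pos t₁ i1
  have p2 : 0 < β₂.im := pos t₂ i2
  have z1 : β₁ ≠ 0 := fun h0 => by rw [h0] at p1; simp at p1
  have z2 : β₂ ≠ 0 := fun h0 => by rw [h0] at p2; simp at p2
  have q1 : 0 < ‖β₁‖ ^ 2 := by have := norm_pos_iff.2 z1; positivity
  have q2 : 0 < ‖β₂‖ ^ 2 := by have := norm_pos_iff.2 z2; positivity
  have hint : Integrable (fun a => f a * g a) ρ :=
    intb (hfc.mul hgc) (C := 1 / η * (1 / η)) (fun a => by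
      rw [norm_mul]; exact mul_le_mul (hfb a) (hgb a) (norm_nonneg _) (by positivity))
  have dβ : β₂ - β₁ = (S₁ - S₂) * ∫ a, f a * g a ∂ρ := by
    have c1 : β₂ - β₁ = ∫ a, (g a - f a) ∂ρ := by
      rw [integral_sub (intb hgc hgb) (intb hfc hfb), eβ₁, eβ₂]
    rw [c1, ← integral_const_mul]
    congr 1
    funext a
    have y1 := ne0 i1 a
    have y2 := ne0 i2 a
    simp only [hf, hg]
    rw [div_sub_div _ _ y2 y1, div_mul_div_comm, mul_div_assoc']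
    rw [div_eq_div_iff (mul_ne_zero y2 y1) (mul_ne_zero y1 y2), ht₁, ht₂]
    ring
  have dX : xm ρ x S₁ - xm ρ x S₂ = (S₁ - S₂) * Cv / (β₁ * β₂) := by
    unfold xm
    rw [← ht₁, ← ht₂, ← hβ₁, ← hβ₂, hCv]
    have c1 : 1 / β₁ - S₁ - (1 / β₂ - S₂) = (β₂ - β₁) / (β₁ * β₂) - (S₁ - S₂) := by
      field_simp; ring
    rw [c1, dβ]
    field_simp
  have imX : ∀ (S t β : ℂ) (A : ℝ), t = x + S → S.im ≤ -η → β.im = -t.im * A → 0 < ‖β‖ ^ 2 →
      0 ≤ A → -S.im * ((A - ‖β‖ ^ 2) / ‖β‖ ^ 2) ≤ -(1 / β - S).im := by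
    intro S t β A ht hS hβ hβ0 hA
    rw [Complex.sub_im, one_div, Complex.inv_im, Complex.normSq_eq_norm_sq, hβ, ht, Complex.add_im]
    have hne : ‖β‖ ≠ 0 := fun h0 => by rw [h0] at hβ0; simp at hβ0
    have e1 : -(-(-(x.im + S.im) * A) / ‖β‖ ^ 2 - S.im) =
        (-x.im) * A / ‖β‖ ^ 2 + -S.im * ((A - ‖β‖ ^ 2) / ‖β‖ ^ 2) := by
      field_simp
      ring
    rw [e1]
    have : 0 ≤ (-x.im) * A / ‖β‖ ^ 2 := by
      apply div_nonneg (mul_nonneg (by linarith) hA) hβ0.le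
    linarith
  have hA10 : 0 ≤ A₁ := integral_nonneg fun a => by positivity
  have hA20 : 0 ≤ A₂ := integral_nonneg fun a => by positivity
  have u1 := imX S₁ t₁ β₁ A₁ rfl hS₁ im1 q1 hA10
  have u2 := imX S₂ t₂ β₂ A₂ rfl hS₂ im2 q2 hA20
  have w1 : 0 ≤ -S₁.im * (V₁ / ‖β₁‖ ^ 2) := mul_nonneg (by linarith) (div_nonneg hV10 q1.le)
  have w2 : 0 ≤ -S₂.im * (V₂ / ‖β₂‖ ^ 2) := mul_nonneg (by linarith) (div_nonneg hV20 q2.le)
  have hprod : (-S₁.im * (V₁ / ‖β₁‖ ^ 2)) * (-S₂.im * (V₂ / ‖β₂‖ ^ 2)) ≤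
      (xm ρ x S₁).im * (xm ρ x S₂).im := by
    have := mul_le_mul u1 u2 w2 (w1.trans u1)
    refine this.trans (le_of_eq ?_)
    unfold xm
    rw [← ht₁, ← ht₂, ← hβ₁, ← hβ₂]
    ring
  have hSS : 0 ≤ S₁.im * S₂.im := mul_nonneg_of_nonpos_of_nonpos (by linarith) (by linarith)
  calc ‖xm ρ x S₁ - xm ρ x S₂‖ ^ 2 * (S₁.im * S₂.im)
      = ‖S₁ - S₂‖ ^ 2 * (S₁.im * S₂.im) / (‖β₁‖ ^ 2 * ‖β₂‖ ^ 2) * ‖Cv‖ ^ 2 := by
        rw [dX, norm_div, norm_mul, norm_mul, div_pow, mul_pow, mul_pow]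
        ring
    _ ≤ ‖S₁ - S₂‖ ^ 2 * (S₁.im * S₂.im) / (‖β₁‖ ^ 2 * ‖β₂‖ ^ 2) * ((1 - gp) * (V₁ * V₂)) :=
        mul_le_mul_of_nonneg_left hCov (by positivity)
    _ = (1 - gp) * ‖S₁ - S₂‖ ^ 2 *
        ((-S₁.im * (V₁ / ‖β₁‖ ^ 2)) * (-S₂.im * (V₂ / ‖β₂‖ ^ 2))) := by
        field_simp
    _ ≤ (1 - gp) * ‖S₁ - S₂‖ ^ 2 * ((xm ρ x S₁).im * (xm ρ x S₂).im) :=
        mul_le_mul_of_nonneg_left hprod (mul_nonneg (by linarith) (by positivity))

end Pool.Agent.Run7.h298.BAG
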