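import Pool.Agent.Run7.h442.BA.Stm
import Pool.Agent.N306.HB.LV

/-! # Project BA, piece X1: bounds for the effective symbol of one level -/

set_option autoImplicit false

namespace Pool.Agent.Run7.h298.BAX1

open MeasureTheory Pool.Agent.N659.HB Pool.Agent.Run7.h442.BA Pool.Agent.N306.HB.LV
open Pool.Agent.W792.WA

lemma bet_nb (μ : Measure ℝ) [IsProbabilityMeasure μ] {t : ℂ} (ht : t.im < 0) :
    ‖bet μ t‖ ≤ 1 / (-t.im) := by
  unfold bet
  have h := norm_integral_le_of_norm_le_const (μ := μ) (ae_of_all _ fun a : ℝ => nbd ht a)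
  simpa using h

/-- The transform of a level and a small law. -/
lemma core {ψ : C(UnitAddCircle, ℝ)} (hψ : IsSemi ψ) {r η : ℝ} {ρ' : Measure ℝ}
    [IsProbabilityMeasure ρ'] (hr : 0 < r) (hη : 100 * r ≤ η)
    (hρ' : ρ' (Set.Icc (-(r / 8)) (r / 8))ᶜ = 0) {t : ℂ} (ht : t.im ≤ -η) :
    1 / (2 * ‖t‖) ≤ ‖bet ((lev ψ r).conv ρ') t‖ ∧
    ‖1 / bet ((lev ψ r).conv ρ') t - t - ((∫ a, a ∂ρ' : ℝ) : ℂ)‖ ≤ 50 * r ^ 2 / η := by
  have hη0 : 0 < η := by linarith
  have htim : t.im < 0 := by linarith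
  set T := ‖t‖ with hT
  have hTη : η ≤ T := by
    have := Complex.abs_im_le_norm t
    rw [abs_of_neg htim] at this
    linarith
  have hT0 : 0 < T := by linarith
  have hs := ae_supp hρ'
  set u : ℝ → ℂ := fun b => bet (lev ψ r) (t + (b : ℂ)) with hu
  have him : ∀ b : ℝ, (t + (b : ℂ)).im < 0 := fun b => by rwa [addr_im]
  have huc : Continuous u := cont_lev _ htim
  have hub : ∀ b, ‖u b‖ ≤ 1 / η := fun b => by
    refine (bet_nb _ (him b)).trans ?_
    rw [addr_im]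
    exact one_div_le_one_div_of_le hη0 (by linarith)
  have hui : Integrable u ρ' :=
    Integrable.of_bound huc.aestronglyMeasurable (1 / η) (ae_of_all _ hub)
  set β := bet ((lev ψ r).conv ρ') t with hβ
  have eβ : β = ∫ b, u b ∂ρ' := conv_eq ψ r ρ' htim
  set e : ℝ → ℂ := fun b => (b : ℂ) - r ^ 2 / 4 * u b with he
  have hinv : ∀ b, (u b)⁻¹ = t + e b := fun b => by
    obtain ⟨-, -, h3⟩ := lev_eqn ψ hψ hr (him b)
    change t + (b : ℂ) = r ^ 2 / 4 * u b + (u b)⁻¹ at h3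
    rw [he]
    linear_combination -h3
  have hne : ∀ b, u b ≠ 0 := fun b => (lev_eqn ψ hψ hr (him b)).2.1
  have hr2 : ‖((r : ℂ) ^ 2 / 4)‖ = r ^ 2 / 4 := by
    rw [norm_div, norm_pow, Complex.norm_real, Real.norm_eq_abs, abs_of_pos hr]
    norm_num
  have hr400 : r ^ 2 / 4 * (1 / η) ≤ r / 400 := by
    rw [mul_one_div, div_le_iff₀ hη0]
    nlinarith
  have heb : ∀ b : ℝ, |b| ≤ r / 8 → ‖e b‖ ≤ 13 / 100 * r := fun b hb => by
    rw [he]
    refine (norm_sub_le _ _).trans ?_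
    rw [norm_mul, hr2, Complex.norm_real, Real.norm_eq_abs]
    have h1 : r ^ 2 / 4 * ‖u b‖ ≤ r ^ 2 / 4 * (1 / η) :=
      mul_le_mul_of_nonneg_left (hub b) (by positivity)
    linarith
  have huT : ∀ b : ℝ, |b| ≤ r / 8 → ‖u b‖ ≤ 2 / T := fun b hb => by
    have h1 : ‖(u b)⁻¹‖ ≥ T / 2 := by
      rw [hinv b]
      have h2 := norm_sub_norm_le t (-(e b))
      rw [sub_neg_eq_add, norm_neg] at h2
      have := heb b hb
      linarith
    rw [norm_inv] at h1
    have h3 : 0 < ‖u b‖ := norm_pos_iff.2 (hne b)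
    rw [le_div_iff₀ hT0]
    have h4 : ‖u b‖ * (T / 2) ≤ ‖u b‖ * ‖u b‖⁻¹ := mul_le_mul_of_nonneg_left h1 h3.le
    rw [mul_inv_cancel₀ h3.ne'] at h4
    linarith
  have hdiff : ∀ b b' : ℝ, |b| ≤ r / 8 → |b'| ≤ r / 8 → ‖u b - u b'‖ ≤ 2 * r / T ^ 2 := by
    intro b b' hb hb'
    have h1 : u b - u b' = u b * u b' * (e b' - e b) := by
      have h2 : e b' - e b = (u b')⁻¹ - (u b)⁻¹ := by rw [hinv, hinv]; ring
      rw [h2]
      have := hne b
      have := hne b'
      field_simp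
    rw [h1, norm_mul, norm_mul]
    have h3 : ‖e b' - e b‖ ≤ 26 / 100 * r := by
      refine (norm_sub_le _ _).trans ?_
      have := heb b hb
      have := heb b' hb'
      linarith
    calc ‖u b‖ * ‖u b'‖ * ‖e b' - e b‖ ≤ (2 / T) * (2 / T) * (26 / 100 * r) :=
          mul_le_mul (mul_le_mul (huT b hb) (huT b' hb') (norm_nonneg _) (by positivity)) h3
            (norm_nonneg _) (by positivity)
      _ = (104 / 100) * r / T ^ 2 := by field_simp; norm_num
      _ ≤ 2 * r / T ^ 2 := by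
          apply div_le_div_of_nonneg_right _ (by positivity)
          linarith
  have hdβ : ∀ b : ℝ, |b| ≤ r / 8 → ‖u b - β‖ ≤ 2 * r / T ^ 2 := by
    intro b hb
    have h1 : u b - β = ∫ b', (u b - u b') ∂ρ' := by
      rw [integral_sub (integrable_const _) hui, ← eβ]
      simp
    rw [h1]
    have h := norm_integral_le_of_norm_le_const (μ := ρ') (f := fun b' => u b - u b')
      (C := 2 * r / T ^ 2) (by
        filter_upwards [hs] with b' hb'
        exact hdiff b b' hb hb')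
    simpa using h
  -- the identity
  have hnn : ∃ b : ℝ, |b| ≤ r / 8 := ⟨0, by rw [abs_zero]; positivity⟩
  have hlow : 1 / (2 * T) ≤ ‖β‖ := by
    obtain ⟨b, hb⟩ := hnn
    have h1 := hdβ b hb
    have h2 : 9 / 10 / T ≤ ‖u b‖ := by
      have h3 : ‖(u b)⁻¹‖ ≤ 11 / 10 * T := by
        rw [hinv b]
        refine (norm_add_le _ _).trans ?_
        have := heb b hb
        linarith
      rw [norm_inv] at h3
      have h4 : 0 < ‖u b‖ := norm_pos_iff.2 (hne b)
      rw [div_le_iff₀ hT0]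
      have h5 : ‖u b‖ * ‖u b‖⁻¹ ≤ ‖u b‖ * (11 / 10 * T) := mul_le_mul_of_nonneg_left h3 h4.le
      rw [mul_inv_cancel₀ h4.ne'] at h5
      linarith
    have h3 : 2 * r / T ^ 2 ≤ 2 / 100 / T := by
      rw [div_le_div_iff₀ (by positivity) hT0]
      nlinarith
    have h4 := norm_sub_norm_le (u b) β
    have h5 : 1 / (2 * T) = 5 / 10 / T := by field_simp; norm_num
    have h6 : 9 / 10 / T - 2 / 100 / T = 88 / 100 / T := by field_simp; norm_num
    have h7 : 5 / 10 / T ≤ 88 / 100 / T := div_le_div_of_nonneg_right (by norm_num) hT0.le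
    rw [h5]
    linarith
  refine ⟨hlow, ?_⟩
  have hβ0 : 0 < ‖β‖ := lt_of_lt_of_le (by positivity) hlow
  have hβne : β ≠ 0 := norm_pos_iff.1 hβ0
  have hbi : Integrable (fun b : ℝ => (b : ℂ)) ρ' :=
    Integrable.of_bound (by fun_prop) (r / 8) (by
      filter_upwards [hs] with b hb
      rw [Complex.norm_real, Real.norm_eq_abs]; exact hb)
  have hm : ((∫ a, a ∂ρ' : ℝ) : ℂ) = ∫ b : ℝ, (b : ℂ) ∂ρ' := by
    exact (integral_ofReal (𝕜 := ℂ) (f := fun b : ℝ => b)).symm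
  have hkey : 1 - t * β - ((∫ a, a ∂ρ' : ℝ) : ℂ) * β =
      ∫ b : ℝ, ((b : ℂ) * (u b - β) - r ^ 2 / 4 * u b ^ 2) ∂ρ' := by
    have h1 : ∀ b : ℝ, (b : ℂ) * (u b - β) - r ^ 2 / 4 * u b ^ 2 = 1 - t * u b - (b : ℂ) * β := by
      intro b
      have h2 : 1 = u b * (t + e b) := by rw [← hinv b, mul_inv_cancel₀ (hne b)]
      have h3 : e b = (b : ℂ) - r ^ 2 / 4 * u b := rfl
      rw [h3] at h2
      linear_combination -h2
    have h2 : (fun b : ℝ => (b : ℂ) * (u b - β) - r ^ 2 / 4 * u b ^ 2) =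
        fun b => 1 - t * u b - (b : ℂ) * β := by funext b; exact h1 b
    rw [h2]
    have i1 : Integrable (fun b => 1 - t * u b) ρ' := (integrable_const _).sub (hui.const_mul t)
    rw [integral_sub i1 (hbi.mul_const β), integral_sub (integrable_const _) (hui.const_mul t),
      integral_const_mul, integral_mul_const, ← eβ, hm]
    simp
  have e1 : 1 / β - t - ((∫ a, a ∂ρ' : ℝ) : ℂ) =
      (1 - t * β - ((∫ a, a ∂ρ' : ℝ) : ℂ) * β) / β := by
    field_simp
  rw [e1, hkey, norm_div, div_le_iff₀ hβ0]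
  have hb1 : ‖∫ b : ℝ, ((b : ℂ) * (u b - β) - r ^ 2 / 4 * u b ^ 2) ∂ρ'‖ ≤ 2 * r ^ 2 / T ^ 2 := by
    have h := norm_integral_le_of_norm_le_const (μ := ρ')
      (f := fun b : ℝ => (b : ℂ) * (u b - β) - r ^ 2 / 4 * u b ^ 2) (C := 2 * r ^ 2 / T ^ 2) (by
        filter_upwards [hs] with b hb
        refine (norm_sub_le _ _).trans ?_
        rw [norm_mul, norm_mul, hr2, norm_pow, Complex.norm_real, Real.norm_eq_abs]
        have h1 : |b| * ‖u b - β‖ ≤ r / 8 * (2 * r / T ^ 2) :=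
          mul_le_mul hb (hdβ b hb) (norm_nonneg _) (by positivity)
        have h2 : r ^ 2 / 4 * ‖u b‖ ^ 2 ≤ r ^ 2 / 4 * (2 / T) ^ 2 :=
          mul_le_mul_of_nonneg_left (pow_le_pow_left₀ (norm_nonneg _) (huT b hb) 2) (by positivity)
        have h3 : r / 8 * (2 * r / T ^ 2) + r ^ 2 / 4 * (2 / T) ^ 2 = 5 / 4 * r ^ 2 / T ^ 2 := by
          field_simp; norm_num
        have h4 : 5 / 4 * r ^ 2 / T ^ 2 ≤ 2 * r ^ 2 / T ^ 2 := by
          apply div_le_div_of_nonneg_right _ (by positivity)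
          nlinarith [sq_nonneg r]
        linarith)
    simpa using h
  refine hb1.trans ?_
  calc 2 * r ^ 2 / T ^ 2 = (4 * r ^ 2 / T) * (1 / (2 * T)) := by field_simp; norm_num
    _ ≤ (50 * r ^ 2 / η) * ‖β‖ := by
        apply mul_le_mul _ hlow (by positivity) (by positivity)
        rw [div_le_div_iff₀ hT0 hη0]
        have : r ^ 2 * η ≤ r ^ 2 * T := mul_le_mul_of_nonneg_left hTη (by positivity)
        nlinarith [mul_pos (pow_pos hr 2) hT0]

theorem main (lv : S_LV) : S_XB := by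
  intro ψ hψ r η ρ' _ hr hη hρ' x S hx hS
  have hη0 : 0 < η := by linarith
  have him : ∀ y : ℂ, y.im ≤ 0 → (y + S).im ≤ -η := fun y hy => by
    rw [Complex.add_im]; linarith
  have ht := him x hx
  obtain ⟨c1, c2⟩ := core hψ hr hη hρ' ht
  have hlv := lv ψ hψ r ρ' hr hρ' (x + S) (by linarith)
  have hT0 : ∀ y : ℂ, y.im ≤ 0 → 0 < ‖y + S‖ := fun y hy => by
    apply norm_pos_iff.2
    intro h0
    have := him y hy
    rw [h0] at this
    simp at this
    linarith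
  have hT := hT0 x hx
  refine ⟨?_, ?_, ?_⟩
  · unfold xm
    have e1 : 1 / bet ((lev ψ r).conv ρ') (x + S) - S - (x + ((∫ a, a ∂ρ' : ℝ) : ℂ)) =
        1 / bet ((lev ψ r).conv ρ') (x + S) - (x + S) - ((∫ a, a ∂ρ' : ℝ) : ℂ) := by ring
    rw [e1]
    exact c2
  · have h5 := hlv.2.2.2.2.1
    unfold xm
    rw [Complex.sub_im]
    have h6 : η * r ^ 2 / (16 * ‖x + S‖ ^ 2) ≤
        (-(x + S).im) * (r ^ 2 / 4 * ‖bet ((lev ψ r).conv ρ') (x + S)‖ ^ 2) := by
      have h7 : (1 / (2 * ‖x + S‖)) ^ 2 ≤ ‖bet ((lev ψ r).conv ρ') (x + S)‖ ^ 2 :=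
        pow_le_pow_left₀ (by positivity) c1 2
      calc η * r ^ 2 / (16 * ‖x + S‖ ^ 2) = η * (r ^ 2 / 4 * (1 / (2 * ‖x + S‖)) ^ 2) := by
            field_simp; norm_num
        _ ≤ (-(x + S).im) * (r ^ 2 / 4 * ‖bet ((lev ψ r).conv ρ') (x + S)‖ ^ 2) := by
            apply mul_le_mul (by linarith) _ (by positivity) (by linarith)
            exact mul_le_mul_of_nonneg_left h7 (by positivity)
    have h8 : (x + S).im = x.im + S.im := Complex.add_im _ _
    have h9 : (-(x + S).im) * (1 + r ^ 2 / 4 * ‖bet ((lev ψ r).conv ρ') (x + S)‖ ^ 2) =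
      -(x + S).im + (-(x + S).im) * (r ^ 2 / 4 * ‖bet ((lev ψ r).conv ρ') (x + S)‖ ^ 2) := by ring
    rw [h9] at h5
    linarith
  · intro x' hx'
    obtain ⟨d1, -⟩ := core hψ hr hη hρ' (him x' hx')
    have hT' := hT0 x' hx'
    have hlip := hlv.2.2.2.2.2 (x' + S) (by have := him x' hx'; linarith)
    set β := bet ((lev ψ r).conv ρ') (x + S) with hβ
    set β' := bet ((lev ψ r).conv ρ') (x' + S) with hβ'
    have hβ0 : 0 < ‖β‖ := lt_of_lt_of_le (by positivity) c1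
    have hβ0' : 0 < ‖β'‖ := lt_of_lt_of_le (by positivity) d1
    have n1 : β ≠ 0 := norm_pos_iff.1 hβ0
    have n2 : β' ≠ 0 := norm_pos_iff.1 hβ0'
    have e1 : xm ((lev ψ r).conv ρ') x S - xm ((lev ψ r).conv ρ') x' S =
        (β' - β) * (β⁻¹ * β'⁻¹) := by
      unfold xm
      rw [← hβ, ← hβ']
      field_simp
      ring
    rw [e1, norm_mul, norm_mul, norm_inv, norm_inv, norm_sub_rev]
    have i1 : ‖β‖⁻¹ ≤ 2 * ‖x + S‖ := by
      rw [inv_le_comm₀ hβ0 (by positivity), ← one_div]; exact c1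
    have i2 : ‖β'‖⁻¹ ≤ 2 * ‖x' + S‖ := by
      rw [inv_le_comm₀ hβ0' (by positivity), ← one_div]; exact d1
    have i3 : ‖β - β'‖ ≤ ‖x - x'‖ / η ^ 2 := by
      refine hlip.trans ?_
      have e2 : x + S - (x' + S) = x - x' := by ring
      rw [e2]
      apply div_le_div_of_nonneg_left (norm_nonneg _) (by positivity)
      have j1 := him x hx
      have j2 := him x' hx'
      nlinarith
    calc ‖β - β'‖ * (‖β‖⁻¹ * ‖β'‖⁻¹) ≤ (‖x - x'‖ / η ^ 2) * ((2 * ‖x + S‖) * (2 * ‖x' + S‖)) :=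
          mul_le_mul i3 (mul_le_mul i1 i2 (by positivity) (by positivity)) (by positivity)
            (by positivity)
      _ = _ := by ring

end Pool.Agent.Run7.h298.BAX1
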